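import Mathlib

set_option autoImplicit false

namespace Pool.Agent.Ins33.Cube

open Finset

/-- Flip coordinate `i` of the cube vertex `u`. -/
def flp {n : ℕ} (u : Fin n → Bool) (i : Fin n) : Fin n → Bool := Function.update u i (!u i)

lemma flp_same {n : ℕ} (u : Fin n → Bool) (i : Fin n) : flp u i i = !u i := by simp [flp]

lemma flp_ne {n : ℕ} (u : Fin n → Bool) (i j : Fin n) (h : j ≠ i) : flp u i j = u j := by
  simp [flp, h]

lemma flp_flp {n : ℕ} (u : Fin n → Bool) (i : Fin n) : flp (flp u i) i = u := by
  funext j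
  by_cases h : j = i
  · subst h; simp [flp]
  · simp [flp, h]

lemma hammingDist_flp {n : ℕ} (u : Fin n → Bool) (i : Fin n) : hammingDist u (flp u i) = 1 := by
  unfold hammingDist
  rw [Finset.card_eq_one]
  refine ⟨i, ?_⟩
  ext j
  simp only [Finset.mem_filter, Finset.mem_univ, true_and, Finset.mem_singleton]
  by_cases h : j = i
  · subst h; simp [flp]
  · simp [flp, h]

/-- `Reach c v u b m`: starting at `v` in state colour `false`, one can be at `u` in state colour
`b` using `m` changes of the state colour, where one may traverse an edge only if its colour is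
the present state colour. -/
inductive Reach {n : ℕ} (c : (Fin n → Bool) → (Fin n → Bool) → Bool) (v : Fin n → Bool) :
    (Fin n → Bool) → Bool → ℕ → Prop
  | start : Reach c v v false 0
  | step (u : Fin n → Bool) (i : Fin n) (b : Bool) (m : ℕ) :
      Reach c v u b m → c u (flp u i) = b → Reach c v (flp u i) b m
  | turn (u : Fin n → Bool) (b : Bool) (m : ℕ) : Reach c v u b m → Reach c v u (!b) (m + 1)

lemma Reach.parity {n : ℕ} {c : (Fin n → Bool) → (Fin n → Bool) → Bool} {v u : Fin n → Bool}
    {b : Bool} {m : ℕ} (h : Reach c v u b m) : m % 2 = b.toNat := by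
  induction h with
  | start => rfl
  | step u i b m _ _ ih => exact ih
  | turn u b m _ ih =>
    cases b <;> simp at ih ⊢ <;> omega

lemma Reach.any {n : ℕ} {c : (Fin n → Bool) → (Fin n → Bool) → Bool} {v u : Fin n → Bool}
    {b : Bool} {m : ℕ} (h : Reach c v u b m) (b' : Bool) : ∃ m', Reach c v u b' m' := by
  by_cases hb : b' = b
  · exact ⟨m, hb ▸ h⟩
  · have : b' = !b := by cases b <;> cases b' <;> simp_all
    exact ⟨m + 1, this ▸ Reach.turn u b m h⟩

lemma Reach.exists {n : ℕ} (c : (Fin n → Bool) → (Fin n → Bool) → Bool) (v u : Fin n → Bool)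
    (b : Bool) : ∃ m, Reach c v u b m := by
  have key : ∀ S : Finset (Fin n), ∃ b m, Reach c v (fun i => if i ∈ S then u i else v i) b m := by
    intro S
    induction S using Finset.induction_on with
    | empty => exact ⟨false, 0, by simpa using Reach.start⟩
    | insert a S ha ih =>
      obtain ⟨b, m, h⟩ := ih
      by_cases hua : u a = v a
      · refine ⟨b, m, ?_⟩
        convert h using 1
        funext i
        by_cases hi : i = a
        · subst hi; simp [ha, hua]
        · simp [hi]
      · have e : (fun i => if i ∈ insert a S then u i else v i)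
            = flp (fun i => if i ∈ S then u i else v i) a := by
          funext i
          by_cases hi : i = a
          · subst hi
            simp only [Finset.mem_insert, true_or, if_true, flp_same, if_neg ha]
            cases h1 : u i <;> cases h2 : v i <;> simp_all
          · simp [flp_ne _ _ _ hi, hi]
        rw [e]
        obtain ⟨m', h'⟩ := h.any (c (fun i => if i ∈ S then u i else v i)
          (flp (fun i => if i ∈ S then u i else v i) a))
        exact ⟨_, m', Reach.step _ _ _ _ h' rfl⟩
  obtain ⟨b', m, h⟩ := key Finset.univ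
  have h2 : (fun i => if i ∈ (Finset.univ : Finset (Fin n)) then u i else v i) = u := by
    funext i; simp
  rw [h2] at h
  exact h.any b

/-- Least number of state changes. -/
noncomputable def g {n : ℕ} (c : (Fin n → Bool) → (Fin n → Bool) → Bool) (v u : Fin n → Bool)
    (b : Bool) : ℕ := sInf {m | Reach c v u b m}

lemma g_mem {n : ℕ} (c : (Fin n → Bool) → (Fin n → Bool) → Bool) (v u : Fin n → Bool)
    (b : Bool) : Reach c v u b (g c v u b) :=
  Nat.sInf_mem (s := {m | Reach c v u b m}) (Reach.exists c v u b)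

lemma g_le {n : ℕ} {c : (Fin n → Bool) → (Fin n → Bool) → Bool} {v u : Fin n → Bool}
    {b : Bool} {m : ℕ} (h : Reach c v u b m) : g c v u b ≤ m := Nat.sInf_le h

lemma g_flp {n : ℕ} {c : (Fin n → Bool) → (Fin n → Bool) → Bool} (hc : ∀ x y, c x y = c y x)
    (v u : Fin n → Bool) (i : Fin n) (b : Bool) (hb : c u (flp u i) = b) :
    g c v (flp u i) b = g c v u b := by
  apply le_antisymm
  · exact g_le (Reach.step u i b _ (g_mem c v u b) hb)
  · have := Reach.step (flp u i) i b _ (g_mem c v (flp u i) b) (by rw [flp_flp, hc]; exact hb)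
    rw [flp_flp] at this
    exact g_le this

lemma g_turn {n : ℕ} (c : (Fin n → Bool) → (Fin n → Bool) → Bool) (v u : Fin n → Bool)
    (b : Bool) : g c v u (!b) ≤ g c v u b + 1 := g_le (Reach.turn u b _ (g_mem c v u b))

lemma g_diff {n : ℕ} (c : (Fin n → Bool) → (Fin n → Bool) → Bool) (v u : Fin n → Bool) :
    g c v u true = g c v u false + 1 ∨ g c v u false = g c v u true + 1 := by
  have h1 := g_turn c v u true
  have h2 := g_turn c v u false
  have h3 := (g_mem c v u true).parity
  have h4 := (g_mem c v u false).parity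
  simp only [Bool.not_true, Bool.not_false, Bool.toNat_true, Bool.toNat_false] at h1 h2 h3 h4
  omega

lemma g_self {n : ℕ} (c : (Fin n → Bool) → (Fin n → Bool) → Bool) (v : Fin n → Bool) :
    g c v v false = 0 := Nat.le_zero.mp (g_le Reach.start)

/-- From `Reach` to an honest path. -/
lemma Reach.path {n : ℕ} {c : (Fin n → Bool) → (Fin n → Bool) → Bool} {v u : Fin n → Bool}
    {b : Bool} {m : ℕ} (h : Reach c v u b m) :
    ∃ k : ℕ, ∃ p : ℕ → (Fin n → Bool), p 0 = v ∧ p k = u ∧
      (∀ i, i < k → hammingDist (p i) (p (i + 1)) = 1) ∧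
      (k = 0 ∨ ∃ k', k = k' + 1 ∧
        ((Finset.range k').filter
            (fun i => c (p i) (p (i + 1)) ≠ c (p (i + 1)) (p (i + 2)))).card
          + (if c (p k') (p (k' + 1)) = b then 0 else 1) ≤ m) := by
  induction h with
  | start => exact ⟨0, fun _ => v, rfl, rfl, by simp, Or.inl rfl⟩
  | turn u b m _ ih =>
    obtain ⟨k, p, h0, hk, hadj, hch⟩ := ih
    refine ⟨k, p, h0, hk, hadj, ?_⟩
    rcases hch with h | ⟨k', hk', h⟩
    · exact Or.inl h
    · refine Or.inr ⟨k', hk', ?_⟩
      by_cases hb : c (p k') (p (k' + 1)) = b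
      · rw [if_pos hb] at h
        split_ifs <;> omega
      · have hb2 : c (p k') (p (k' + 1)) = !b := by
          cases hh : c (p k') (p (k' + 1)) <;> cases b <;> simp_all
        rw [if_neg hb] at h
        rw [if_pos hb2]
        omega
  | step u i b m _ hcb ih =>
    obtain ⟨k, p, h0, hk, hadj, hch⟩ := ih
    refine ⟨k + 1, fun j => if j ≤ k then p j else flp u i, by simp [h0], by simp, ?_, ?_⟩
    · intro j hj
      by_cases hjk : j + 1 ≤ k
      · have : j ≤ k := by omega
        simp only [this, hjk, if_true]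
        exact hadj j (by omega)
      · have hjk' : j = k := by omega
        subst hjk'
        simp only [le_refl, if_true, hjk, if_false, hk]
        exact hammingDist_flp u i
    · refine Or.inr ⟨k, rfl, ?_⟩
      have hlast : c ((fun j => if j ≤ k then p j else flp u i) k)
          ((fun j => if j ≤ k then p j else flp u i) (k + 1)) = b := by
        simp only [le_refl, if_true]
        rw [if_neg (by omega), hk]
        exact hcb
      rw [if_pos hlast]
      rcases hch with h | ⟨k', hk', h⟩
      · subst h; simp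
      · subst hk'
        rw [Finset.range_add_one, Finset.filter_insert]
        have hcong : (Finset.range k').filter (fun j =>
            c (if j ≤ k' + 1 then p j else flp u i)
              (if j + 1 ≤ k' + 1 then p (j + 1) else flp u i) ≠
            c (if j + 1 ≤ k' + 1 then p (j + 1) else flp u i)
              (if j + 2 ≤ k' + 1 then p (j + 2) else flp u i))
            = (Finset.range k').filter
            (fun i => c (p i) (p (i + 1)) ≠ c (p (i + 1)) (p (i + 2))) := by
          apply Finset.filter_congr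
          intro j hj
          have hj' := Finset.mem_range.mp hj
          simp only [show j ≤ k' + 1 by omega, show j + 1 ≤ k' + 1 by omega,
            show j + 2 ≤ k' + 1 by omega, if_true]
        simp only
        rw [hcong]
        have h1 : k' ≤ k' + 1 := by omega
        have h2 : ¬ (k' + 2 ≤ k' + 1) := by omega
        have h3 : k' + 1 ≤ k' + 1 := le_refl _
        simp only [if_pos h1, if_neg h2, if_pos h3]
        by_cases hb : c (p k') (p (k' + 1)) = b
        · rw [if_pos hb] at h
          have : ¬ (c (p k') (p (k' + 1)) ≠ c (p (k' + 1)) (flp u i)) := by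
            rw [hb, hk, hcb]; simp
          rw [if_neg this]
          omega
        · rw [if_neg hb] at h
          have : (c (p k') (p (k' + 1)) ≠ c (p (k' + 1)) (flp u i)) := by
            rw [hk, hcb, ← hk]; exact hb
          rw [if_pos this]
          have := Finset.card_insert_le k' ((Finset.range k').filter
            (fun i => c (p i) (p (i + 1)) ≠ c (p (i + 1)) (p (i + 2))))
          omega

/-- Coordinatewise sum modulo two. -/
def addv {n : ℕ} (v R : Fin n → Bool) : Fin n → Bool := fun i => xor (v i) (R i)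

lemma addv_flp {n : ℕ} (v R : Fin n → Bool) (i : Fin n) :
    addv v (flp R i) = flp (addv v R) i := by
  funext j
  by_cases h : j = i
  · subst h; simp [addv, flp]
  · simp [addv, flp, h]

lemma addv_addv {n : ℕ} (v R : Fin n → Bool) : addv (addv v R) R = v := by
  funext j; simp [addv]

/-- Pairing lemma. -/
lemma sum_pair {n : ℕ} (i : Fin n) (h : (Fin n → Bool) → ℝ) (hh : ∀ R, h (flp R i) = - h R) :
    ∑ R, h R = 0 := by
  have h1 : ∑ R, h (flp R i) = ∑ R, h R := by
    apply Fintype.sum_bijective (fun R => flp R i)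
    · exact Function.Involutive.bijective (fun R => flp_flp R i)
    · intro R; rfl
  have h2 : ∑ R, h (flp R i) = - ∑ R, h R := by
    rw [← Finset.sum_neg_distrib]
    exact Finset.sum_congr rfl (fun R _ => hh R)
  linarith

/-- Single coordinate weight. -/
noncomputable def wt (θ : ℝ) (b : Bool) : ℝ := if b then Real.sin θ ^ 2 else Real.cos θ ^ 2

/-- Product weight. -/
noncomputable def W {n : ℕ} (θ : ℝ) (R : Fin n → Bool) : ℝ := ∏ i, wt θ (R i)

/-- The score of a coordinate. -/
noncomputable def ze (θ : ℝ) (b : Bool) : ℝ :=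
  if b then Real.cos θ / Real.sin θ else - (Real.sin θ / Real.cos θ)

lemma W_split {n : ℕ} (θ : ℝ) (R : Fin n → Bool) (i : Fin n) :
    W θ R = wt θ (R i) * ∏ j ∈ Finset.univ.erase i, wt θ (R j) := by
  unfold W
  exact (Finset.mul_prod_erase Finset.univ (fun j => wt θ (R j)) (Finset.mem_univ i)).symm

lemma erase_flp {n : ℕ} (θ : ℝ) (R : Fin n → Bool) (i : Fin n) :
    ∏ j ∈ Finset.univ.erase i, wt θ (flp R i j) = ∏ j ∈ Finset.univ.erase i, wt θ (R j) := by
  apply Finset.prod_congr rfl
  intro j hj
  rw [flp_ne _ _ _ (Finset.ne_of_mem_erase hj)]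

lemma wt_ze {θ : ℝ} (hs : Real.sin θ ≠ 0) (hc : Real.cos θ ≠ 0) (b : Bool) :
    wt θ b * ze θ b = if b then Real.sin θ * Real.cos θ else - (Real.sin θ * Real.cos θ) := by
  cases b
  · simp only [wt, ze]; simp; field_simp
  · simp only [wt, ze]; simp; field_simp

lemma Wze_flp {n : ℕ} {θ : ℝ} (hs : Real.sin θ ≠ 0) (hc : Real.cos θ ≠ 0)
    (R : Fin n → Bool) (i : Fin n) :
    W θ (flp R i) * ze θ (flp R i i) = - (W θ R * ze θ (R i)) := by
  rw [W_split θ (flp R i) i, W_split θ R i, erase_flp, flp_same]
  have h1 := wt_ze hs hc (R i)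
  have h2 := wt_ze hs hc (!(R i))
  have h3 : wt θ (!(R i)) * ze θ (!(R i)) = - (wt θ (R i) * ze θ (R i)) := by
    rw [h1, h2]; cases R i <;> simp
  linear_combination (∏ j ∈ Finset.univ.erase i, wt θ (R j)) * h3

lemma sum_W {n : ℕ} (θ : ℝ) : ∑ R : Fin n → Bool, W θ R = 1 := by
  unfold W
  have h := Finset.prod_univ_sum (fun _ : Fin n => (Finset.univ : Finset Bool))
    (fun _ b => wt θ b)
  rw [Fintype.piFinset_univ] at h
  rw [← h]
  apply Finset.prod_eq_one
  intro i _
  simp [wt, Real.sin_sq_add_cos_sq]

lemma sum_Wzeze_ne {n : ℕ} {θ : ℝ} (hs : Real.sin θ ≠ 0) (hc : Real.cos θ ≠ 0)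
    (i j : Fin n) (hij : i ≠ j) :
    ∑ R : Fin n → Bool, W θ R * (ze θ (R i) * ze θ (R j)) = 0 := by
  apply sum_pair i
  intro R
  have h1 := Wze_flp hs hc R i
  rw [flp_ne R i j (Ne.symm hij)]
  linear_combination (ze θ (R j)) * h1

lemma sum_Wzeze_eq {n : ℕ} {θ : ℝ} (hs : Real.sin θ ≠ 0) (hc : Real.cos θ ≠ 0)
    (i : Fin n) :
    ∑ R : Fin n → Bool, W θ R * (ze θ (R i) * ze θ (R i)) = 1 := by
  have h : ∑ R : Fin n → Bool, W θ R * (ze θ (R i) * ze θ (R i) - 1) = 0 := by
    apply sum_pair i
    intro R
    rw [W_split θ (flp R i) i, W_split θ R i, erase_flp, flp_same]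
    have h3 : wt θ (!(R i)) * (ze θ (!(R i)) * ze θ (!(R i)) - 1)
        = - (wt θ (R i) * (ze θ (R i) * ze θ (R i) - 1)) := by
      cases R i
      · simp only [wt, ze]; simp; field_simp; ring
      · simp only [wt, ze]; simp; field_simp; ring
    linear_combination (∏ j ∈ Finset.univ.erase i, wt θ (R j)) * h3
  have h2 : ∑ R : Fin n → Bool, W θ R * (ze θ (R i) * ze θ (R i))
      = ∑ R : Fin n → Bool, W θ R * (ze θ (R i) * ze θ (R i) - 1) + ∑ R : Fin n → Bool, W θ R := by
    rw [← Finset.sum_add_distrib]
    apply Finset.sum_congr rfl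
    intro R _; ring
  rw [h2, h, sum_W, zero_add]

lemma W_nonneg {n : ℕ} (θ : ℝ) (R : Fin n → Bool) : 0 ≤ W θ R := by
  unfold W
  apply Finset.prod_nonneg
  intro i _
  unfold wt
  split_ifs <;> positivity

/-- The second moment bound. -/
lemma second_moment {n : ℕ} {θ : ℝ} (hs : Real.sin θ ≠ 0) (hc : Real.cos θ ≠ 0)
    (κ : Fin n → ℝ) (hκ : ∀ i, κ i * κ i = 1) :
    ∑ R : Fin n → Bool, W θ R * |∑ i, κ i * ze θ (R i)| ≤ Real.sqrt n := by
  have h1 : ∑ R : Fin n → Bool, W θ R * (∑ i, κ i * ze θ (R i)) ^ 2 = n := by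
    have e : ∀ R : Fin n → Bool, W θ R * (∑ i, κ i * ze θ (R i)) ^ 2
        = ∑ i, ∑ j, κ i * κ j * (W θ R * (ze θ (R i) * ze θ (R j))) := by
      intro R
      rw [sq, Finset.sum_mul_sum, Finset.mul_sum]
      apply Finset.sum_congr rfl
      intro i _
      rw [Finset.mul_sum]
      apply Finset.sum_congr rfl
      intro j _
      ring
    rw [Finset.sum_congr rfl (fun R _ => e R), Finset.sum_comm]
    have e2 : ∀ i : Fin n, ∑ R : Fin n → Bool, ∑ j, κ i * κ j * (W θ R * (ze θ (R i) * ze θ (R j)))
        = 1 := by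
      intro i
      rw [Finset.sum_comm, Finset.sum_eq_single i]
      · rw [← Finset.mul_sum, sum_Wzeze_eq hs hc i, hκ i]; norm_num
      · intro j _ hj
        rw [← Finset.mul_sum, sum_Wzeze_ne hs hc i j (Ne.symm hj)]; simp
      · simp
    rw [Finset.sum_congr rfl (fun i _ => e2 i)]
    simp
  have h2 : (∑ R : Fin n → Bool, W θ R * |∑ i, κ i * ze θ (R i)|) ^ 2 ≤ n := by
    have cs := Finset.sum_mul_sq_le_sq_mul_sq (Finset.univ : Finset (Fin n → Bool))
      (fun R => Real.sqrt (W θ R)) (fun R => Real.sqrt (W θ R) * |∑ i, κ i * ze θ (R i)|)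
    have e3 : ∑ R : Fin n → Bool, Real.sqrt (W θ R) * (Real.sqrt (W θ R) * |∑ i, κ i * ze θ (R i)|)
        = ∑ R : Fin n → Bool, W θ R * |∑ i, κ i * ze θ (R i)| := by
      apply Finset.sum_congr rfl
      intro R _
      rw [← mul_assoc, Real.mul_self_sqrt (W_nonneg θ R)]
    have e4 : ∑ R : Fin n → Bool, Real.sqrt (W θ R) ^ 2 = 1 := by
      rw [← sum_W (n := n) θ]
      apply Finset.sum_congr rfl
      intro R _
      rw [Real.sq_sqrt (W_nonneg θ R)]
    have e5 : ∑ R : Fin n → Bool, (Real.sqrt (W θ R) * |∑ i, κ i * ze θ (R i)|) ^ 2 = n := by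
      rw [← h1]
      apply Finset.sum_congr rfl
      intro R _
      rw [mul_pow, Real.sq_sqrt (W_nonneg θ R), sq_abs]
    rw [e3, e4, e5, one_mul] at cs
    exact cs
  exact Real.le_sqrt_of_sq_le h2

/-- Derivative of the product weight. -/
lemma W_hasDeriv {n : ℕ} {θ : ℝ} (hs : Real.sin θ ≠ 0) (hc : Real.cos θ ≠ 0)
    (R : Fin n → Bool) :
    HasDerivAt (fun t => W t R) (∑ i, 2 * (W θ R * ze θ (R i))) θ := by
  have hw : ∀ b : Bool, HasDerivAt (fun t => wt t b) (2 * (wt θ b * ze θ b)) θ := by
    intro b
    rw [wt_ze hs hc b]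
    cases b
    · have e : (fun t => wt t false) = (fun t => Real.cos t ^ 2) := by funext t; simp [wt]
      rw [e]
      refine ((Real.hasDerivAt_cos θ).fun_pow 2).congr_deriv ?_
      simp; ring
    · have e : (fun t => wt t true) = (fun t => Real.sin t ^ 2) := by funext t; simp [wt]
      rw [e]
      refine ((Real.hasDerivAt_sin θ).fun_pow 2).congr_deriv ?_
      simp; ring
  have h := HasDerivAt.fun_finsetProd (u := Finset.univ) (f := fun (i : Fin n) t => wt t (R i))
    (f' := fun i => 2 * (wt θ (R i) * ze θ (R i))) (x := θ) (fun i _ => hw (R i))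
  unfold W
  refine h.congr_deriv ?_
  apply Finset.sum_congr rfl
  intro i _
  have := W_split θ R i
  unfold W at this
  rw [this, smul_eq_mul]
  ring

/-- The key analytic estimate, for an abstract family of functions `F v` with sign functions
`P v` and signs `κ u i` such that `F v + κ P / 2` is unchanged along the edge in direction `i`. -/
lemma key_bound {n : ℕ} (F P : (Fin n → Bool) → (Fin n → Bool) → ℝ)
    (κ : (Fin n → Bool) → Fin n → ℝ) (hκ : ∀ u i, κ u i * κ u i = 1)
    (hP : ∀ v u, |P v u| = 1)
    (hinv : ∀ v u i, F v (flp u i) + κ (flp u i) i * P v (flp u i) / 2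
      = F v u + κ u i * P v u / 2)
    (h0 : ∀ v, F v v = 0) :
    ∑ v, F v (fun i => !(v i)) ≤ (2 : ℝ) ^ n * (Real.pi / 2 * Real.sqrt n) := by
  set Φ : ℝ → ℝ := fun θ => ∑ v, ∑ R, F v (addv v R) * W θ R with hΦ
  have hderiv : ∀ θ : ℝ, Real.sin θ ≠ 0 → Real.cos θ ≠ 0 →
      HasDerivAt Φ (∑ v, ∑ R, F v (addv v R) * ∑ i, 2 * (W θ R * ze θ (R i))) θ := by
    intro θ hs hc
    rw [hΦ]
    apply HasDerivAt.fun_sum
    intro v _
    apply HasDerivAt.fun_sum
    intro R _
    exact (W_hasDeriv hs hc R).const_mul _
  have hbound : ∀ θ : ℝ, Real.sin θ ≠ 0 → Real.cos θ ≠ 0 →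
      ∑ v, ∑ R, F v (addv v R) * ∑ i, 2 * (W θ R * ze θ (R i)) ≤ (2 : ℝ) ^ n * Real.sqrt n := by
    intro θ hs hc
    -- integration by parts
    have e1 : ∀ v : Fin n → Bool, ∑ R, F v (addv v R) * ∑ i, 2 * (W θ R * ze θ (R i))
        = - ∑ R, P v (addv v R) * (W θ R * ∑ i, κ (addv v R) i * ze θ (R i)) := by
      intro v
      have e2 : ∀ i : Fin n, ∑ R : Fin n → Bool,
          (F v (addv v R) + κ (addv v R) i * P v (addv v R) / 2) * (W θ R * ze θ (R i)) = 0 := by
        intro i
        apply sum_pair i
        intro R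
        rw [addv_flp, hinv, Wze_flp hs hc R i]
        ring
      have e3 : ∑ R, F v (addv v R) * ∑ i, 2 * (W θ R * ze θ (R i))
          + ∑ R, P v (addv v R) * (W θ R * ∑ i, κ (addv v R) i * ze θ (R i))
          = ∑ i, 2 * ∑ R : Fin n → Bool,
          (F v (addv v R) + κ (addv v R) i * P v (addv v R) / 2) * (W θ R * ze θ (R i)) := by
        simp only [Finset.mul_sum]
        rw [Finset.sum_comm (s := (Finset.univ : Finset (Fin n)))]
        rw [← Finset.sum_add_distrib]
        apply Finset.sum_congr rfl
        intro R _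
        rw [← Finset.sum_add_distrib]
        apply Finset.sum_congr rfl
        intro i _
        ring
      have e4 : ∑ i : Fin n, 2 * ∑ R : Fin n → Bool,
          (F v (addv v R) + κ (addv v R) i * P v (addv v R) / 2) * (W θ R * ze θ (R i)) = 0 := by
        apply Finset.sum_eq_zero
        intro i _
        rw [e2 i, mul_zero]
      linarith
    have e5 : ∑ v, ∑ R, F v (addv v R) * ∑ i, 2 * (W θ R * ze θ (R i))
        = - ∑ u, ∑ R, P (addv u R) u * (W θ R * ∑ i, κ u i * ze θ (R i)) := by
      rw [Finset.sum_congr rfl (fun v _ => e1 v), Finset.sum_neg_distrib]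
      congr 1
      rw [Finset.sum_comm]
      rw [Finset.sum_comm (s := (Finset.univ : Finset (Fin n → Bool)))
        (f := fun u R => P (addv u R) u * (W θ R * ∑ i, κ u i * ze θ (R i)))]
      apply Finset.sum_congr rfl
      intro R _
      apply Fintype.sum_bijective (fun v => addv v R)
      · exact Function.Involutive.bijective (fun v => addv_addv v R)
      · intro v
        simp only [addv_addv]
    rw [e5]
    have e6 : ∀ u : Fin n → Bool, - ∑ R, P (addv u R) u * (W θ R * ∑ i, κ u i * ze θ (R i))
        ≤ Real.sqrt n := by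
      intro u
      refine le_trans ?_ (second_moment hs hc (κ u) (hκ u))
      rw [← Finset.sum_neg_distrib]
      apply Finset.sum_le_sum
      intro R _
      refine le_trans (le_abs_self _) ?_
      rw [abs_neg, abs_mul, hP, one_mul, abs_mul, abs_of_nonneg (W_nonneg θ R)]
    have e7 : (- ∑ u, ∑ R, P (addv u R) u * (W θ R * ∑ i, κ u i * ze θ (R i)))
        = ∑ u, (- ∑ R, P (addv u R) u * (W θ R * ∑ i, κ u i * ze θ (R i))) := by
      rw [Finset.sum_neg_distrib]
    rw [e7]
    refine le_trans (Finset.sum_le_sum (fun u _ => e6 u)) ?_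
    simp
  have hcont : Continuous Φ := by
    rw [hΦ]
    apply continuous_finsetSum
    intro v _
    apply continuous_finsetSum
    intro R _
    apply Continuous.mul continuous_const
    unfold W
    apply continuous_finsetProd
    intro i _
    unfold wt
    split_ifs
    · exact Real.continuous_sin.pow 2
    · exact Real.continuous_cos.pow 2
  have hsc : ∀ x ∈ interior (Set.Icc (0 : ℝ) (Real.pi / 2)), Real.sin x ≠ 0 ∧ Real.cos x ≠ 0 := by
    intro x hx
    rw [interior_Icc] at hx
    constructor
    · exact ne_of_gt (Real.sin_pos_of_pos_of_lt_pi hx.1 (by linarith [hx.2, Real.pi_pos]))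
    · exact ne_of_gt (Real.cos_pos_of_mem_Ioo ⟨by linarith [hx.1, Real.pi_pos], hx.2⟩)
  have hmv := Convex.image_sub_le_mul_sub_of_deriv_le (convex_Icc (0 : ℝ) (Real.pi / 2))
    (f := Φ) (C := (2 : ℝ) ^ n * Real.sqrt n) hcont.continuousOn
    (fun x hx => (hderiv x (hsc x hx).1 (hsc x hx).2).differentiableAt.differentiableWithinAt)
    (fun x hx => by
      rw [(hderiv x (hsc x hx).1 (hsc x hx).2).deriv]
      exact hbound x (hsc x hx).1 (hsc x hx).2)
    0 ⟨le_refl _, by positivity⟩ (Real.pi / 2) ⟨by positivity, le_refl _⟩ (by positivity)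
  have hΦ0 : Φ 0 = 0 := by
    rw [hΦ]
    apply Finset.sum_eq_zero
    intro v _
    rw [Finset.sum_eq_single (fun _ => false)]
    · have : addv v (fun _ => false) = v := by funext j; simp [addv]
      rw [this, h0]; simp
    · intro R _ hR
      have : ∃ i, R i = true := by
        by_contra hcon
        push Not at hcon
        apply hR
        funext i
        have := hcon i
        cases h : R i
        · rfl
        · exact absurd h this
      obtain ⟨i, hi⟩ := this
      have : W 0 R = 0 := by
        unfold W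
        apply Finset.prod_eq_zero (Finset.mem_univ i)
        simp [wt, hi]
      rw [this, mul_zero]
    · simp
  have hΦ1 : Φ (Real.pi / 2) = ∑ v, F v (fun i => !(v i)) := by
    rw [hΦ]
    apply Finset.sum_congr rfl
    intro v _
    rw [Finset.sum_eq_single (fun _ => true)]
    · have h1 : addv v (fun _ => true) = (fun i => !(v i)) := by funext j; simp [addv]
      have h2 : W (Real.pi / 2) (fun _ : Fin n => true) = 1 := by
        unfold W
        apply Finset.prod_eq_one
        intro i _
        simp [wt]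
      rw [h1, h2, mul_one]
    · intro R _ hR
      have : ∃ i, R i = false := by
        by_contra hcon
        push Not at hcon
        apply hR
        funext i
        have := hcon i
        cases h : R i
        · exact absurd h this
        · rfl
      obtain ⟨i, hi⟩ := this
      have : W (Real.pi / 2) R = 0 := by
        unfold W
        apply Finset.prod_eq_zero (Finset.mem_univ i)
        simp [wt, hi]
      rw [this, mul_zero]
    · simp
  rw [hΦ0, hΦ1] at hmv
  nlinarith [hmv]

end Pool.Agent.Ins33.Cube
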