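import Pool.Agent.H24.KMM.Main

/-!
# KMM polymorphisms and 3-wnu polymorphisms on oriented forests
-/

set_option autoImplicit false

namespace Pool.Agent.Ins33.Forest

open KMMTree

theorem wtW_step {V : Type} (E : V → V → Prop) (hasym : ∀ a b, E a b → ¬ E b a)
    (hac : (SimpleGraph.fromRel E).IsAcyclic) {r r' a b : V} (hr : r = r') (hab : E a b)
    (hadj : (SimpleGraph.fromRel E).Adj a b)
    (Pa : (SimpleGraph.fromRel E).Walk r a) (Pb : (SimpleGraph.fromRel E).Walk r' b)
    (hPa : Pa.IsPath) (hPb : Pb.IsPath) : wtW E Pb = wtW E Pa + 1 := by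
  classical
  subst hr
  have hu : ∀ {x y : V} (p q : (SimpleGraph.fromRel E).Walk x y), p.IsPath → q.IsPath → p = q := by
    intro x y p q hp hq
    have := hac.path_unique ⟨p, hp⟩ ⟨q, hq⟩
    exact congrArg Subtype.val this
  have hne : a ≠ b := hadj.ne
  by_cases hb : b ∈ Pa.support
  · have h1 : Pb = Pa.takeUntil b hb := hu _ _ hPb (hPa.takeUntil hb)
    have h2 : Pa.dropUntil b hb = SimpleGraph.Walk.cons hadj.symm .nil := by
      refine hu _ _ (hPa.dropUntil hb) ?_
      rw [SimpleGraph.Walk.cons_isPath_iff]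
      exact ⟨SimpleGraph.Walk.IsPath.nil, by simpa using hne.symm⟩
    have h3 := Pa.take_spec hb
    have h4 : wtW E Pa = wtW E Pb + wtW E (Pa.dropUntil b hb) := by
      rw [h1, ← wtW_append, h3]
    rw [h4, h2]
    simp only [wtW]
    rw [if_neg (hasym a b hab)]
    ring
  · have h1 : Pb = Pa.append (SimpleGraph.Walk.cons hadj .nil) := by
      refine hu _ _ hPb ?_
      rw [← SimpleGraph.Walk.concat_eq_append]
      exact hPa.concat hb hadj
    rw [h1, wtW_append]
    simp only [wtW]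
    rw [if_pos hab]
    ring

/-- An oriented forest has a level function. -/
theorem exists_level_forest {V : Type} (E : V → V → Prop) (hirr : ∀ a, ¬ E a a)
    (hasym : ∀ a b, E a b → ¬ E b a) (hac : (SimpleGraph.fromRel E).IsAcyclic) :
    ∃ lam : V → ℤ, IsLevel E lam := by
  classical
  let G := SimpleGraph.fromRel E
  let root : V → V := fun v => (G.connectedComponentMk v).out
  have hroot : ∀ v, ∃ p : G.Walk (root v) v, p.IsPath := by
    intro v
    have h : G.Reachable (root v) v := by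
      apply SimpleGraph.ConnectedComponent.exact
      exact Quot.out_eq _
    obtain ⟨p⟩ := h
    exact ⟨p.bypass, p.bypass_isPath⟩
  choose P hP using hroot
  refine ⟨fun v => wtW E (P v), fun a b hab => ?_⟩
  have hne : a ≠ b := by
    rintro rfl
    exact hirr a hab
  have hadj : (SimpleGraph.fromRel E).Adj a b := by
    rw [SimpleGraph.fromRel_adj]
    exact ⟨hne, Or.inl hab⟩
  have hr : root a = root b := by
    change (G.connectedComponentMk a).out = (G.connectedComponentMk b).out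
    rw [SimpleGraph.ConnectedComponent.sound (SimpleGraph.Adj.reachable hadj)]
  exact wtW_step E hasym hac hr hab hadj (P a) (P b) (hP a) (hP b)

/-- Reduction to idempotent polymorphisms.
`e x = p x x x = q x x x` is an endomorphism; some power `ε = e^M`, `M ≥ 1`, is idempotent.
`V' = {v // ε v = v}`, `E' = E` restricted, `p' = ε ∘ e^(M-1) ∘ p`, `q' = ε ∘ e^(M-1) ∘ q` are
idempotent KMM polymorphisms of `E'`.  `wnu_of_kmm` gives `w'` on `V'`;
`w x y z = w' (ε x) (ε y) (ε z)`. -/
theorem forward (V : Type) [Finite V] (E : V → V → Prop) (hirr : ∀ a, ¬ E a a)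
    (hasym : ∀ a b, E a b → ¬ E b a) (hac : (SimpleGraph.fromRel E).IsAcyclic)
    (p q : V → V → V → V)
    (hp : ∀ x1 x2 x3 y1 y2 y3 : V, E x1 y1 → E x2 y2 → E x3 y3 → E (p x1 x2 x3) (p y1 y2 y3))
    (hq : ∀ x1 x2 x3 y1 y2 y3 : V, E x1 y1 → E x2 y2 → E x3 y3 → E (q x1 x2 x3) (q y1 y2 y3))
    (h : ∀ x y : V, p x y y = q y x x ∧ q y x x = q x x y ∧ p x y x = q x y x) :
    ∃ w : V → V → V → V,
      (∀ x1 x2 x3 y1 y2 y3 : V, E x1 y1 → E x2 y2 → E x3 y3 →
        E (w x1 x2 x3) (w y1 y2 y3)) ∧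
      (∀ x y : V, w x x y = w x y x ∧ w x y x = w y x x) := by
  obtain ⟨lam, hlam⟩ := exists_level_forest E hirr hasym hac
  set e : V → V := fun x => p x x x with he
  have heE : ∀ a b, E a b → E (e a) (e b) := fun a b hab => hp _ _ _ _ _ _ hab hab hab
  have heq : ∀ x, q x x x = e x := fun x => ((h x x).1).symm
  obtain ⟨M, hM⟩ := exists_idem_iterate e
  have hit : ∀ n a b, E a b → E (e^[n] a) (e^[n] b) := by
    intro n
    induction n with
    | zero => intro a b hab; exact hab
    | succ n ih =>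
      intro a b hab
      rw [Function.iterate_succ_apply, Function.iterate_succ_apply]
      exact ih _ _ (heE _ _ hab)
  set ε : V → V := e^[M + 1] with hε
  have hεe : ∀ x, e^[M] (e x) = ε x := fun x => by
    rw [hε, Function.iterate_succ_apply]
  -- the retract
  let V' : Type := {v : V // ε v = v}
  let E' : V' → V' → Prop := fun a b => E a.1 b.1
  let ρ : V → V' := fun v => ⟨ε v, hM v⟩
  have hρ : ∀ a b, E a b → E' (ρ a) (ρ b) := fun a b hab => hit (M + 1) _ _ hab
  have hρid : ∀ v : V', ρ v.1 = v := fun v => Subtype.ext v.2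
  have hlam' : IsLevel E' (fun v => lam v.1) := fun a b hab => hlam _ _ hab
  have hac' : (SimpleGraph.fromRel E').IsAcyclic := by
    refine SimpleGraph.IsAcyclic.comap (G' := SimpleGraph.fromRel E) ⟨Subtype.val, ?_⟩
      Subtype.val_injective hac
    intro a b hab
    rw [SimpleGraph.fromRel_adj] at hab ⊢
    exact ⟨fun h' => hab.1 (Subtype.ext h'), hab.2⟩
  -- the operations
  have hmem : ∀ r : V → V → V → V,
      (∀ x1 x2 x3 y1 y2 y3 : V, E x1 y1 → E x2 y2 → E x3 y3 → E (r x1 x2 x3) (r y1 y2 y3)) →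
      (∀ x, r x x x = e x) →
      mem3 (polClone E') (fun x y z => ρ (e^[M] (r x.1 y.1 z.1))) := by
    intro r hr hre
    refine ⟨fun x y hxy => hρ _ _ (hit M _ _ (hr _ _ _ _ _ _ (hxy 0) (hxy 1) (hxy 2))), ?_⟩
    intro a
    apply Subtype.ext
    show ε (e^[M] (r a.1 a.1 a.1)) = a.1
    rw [hre, hεe, a.2, a.2]
  let P : KMM (polClone E') :=
    { p := fun x y z => ρ (e^[M] (p x.1 y.1 z.1))
      q := fun x y z => ρ (e^[M] (q x.1 y.1 z.1))
      hp := hmem p hp (fun _ => rfl)
      hq := hmem q hq heq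
      h1 := fun x y => by
        show ρ (e^[M] (p x.1 y.1 y.1)) = ρ (e^[M] (q y.1 x.1 x.1))
        rw [(h x.1 y.1).1]
      h2 := fun x y => by
        show ρ (e^[M] (q y.1 x.1 x.1)) = ρ (e^[M] (q x.1 x.1 y.1))
        rw [(h x.1 y.1).2.1]
      h3 := fun x y => by
        show ρ (e^[M] (p x.1 y.1 x.1)) = ρ (e^[M] (q x.1 y.1 x.1))
        rw [(h x.1 y.1).2.2] }
  obtain ⟨w', hw', hsym⟩ := wnu_of_kmm E' (fun v => lam v.1) hlam' hac' P
  refine ⟨fun x y z => (w' (ρ x) (ρ y) (ρ z)).1, ?_, ?_⟩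
  · intro x1 x2 x3 y1 y2 y3 h1 h2 h3
    exact hw'.1 ![ρ x1, ρ x2, ρ x3] ![ρ y1, ρ y2, ρ y3] (by
      intro i
      fin_cases i
      · exact hρ _ _ h1
      · exact hρ _ _ h2
      · exact hρ _ _ h3)
  · intro x y
    exact ⟨congrArg Subtype.val (hsym _ _).1, congrArg Subtype.val (hsym _ _).2⟩

end Pool.Agent.Ins33.Forest
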